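import Pool.Agent.helper33.SP.SpecC1

/-!
# Project sp, part TL: lower tail of the spectral sample (`U3_stmt`)

`m₀` is a fixed base scale; `a4 m₀ p` is the four arm probability from `2 ^ m₀` to `2 ^ p`
(`al m₀ p` of `SpecF` is the same by `rfl`). Hypotheses available everywhere: all statements of
`helper64/TP/{API, SpecE, SpecF}.lean` (`QMX`, `EXR`, `QZ`, `TRQ`, `PVC`, `GRO`, `SUM`, `DEC`,
`Bindep`, `Bmono`, `Banti`, `Bmarg`, ...), of project dp (`DP.AM_stmt`, `DP.Bmono_stmt`, ...), of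
`helper49/SP/Defs.lean`, of `helper33/SP/SpecC1.lean` (`UI5` locality of `four`, `UI7` translation by
even-sum vectors, `UI8` quasi-multiplicativity in terms of `a4`) and of this file. `Q ρ F F`
decreases if the noise profile `ρ` increases (`Banti`).
-/

namespace TP

open DP MeasureTheory

/-! ## Fourier facts (finite product spaces of coins) -/

/-- TL0. Monotonicity and subadditivity of the law of the spectral sample (finite sums of squares;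
only subsets of `Λ` matter). -/
def TL0_stmt : Prop :=
  ∀ (F : Set (V → Bool)) (Λ : Finset V), (∀ A : Set V → Prop, 0 ≤ PSF F Λ A) ∧
    (∀ A B : Set V → Prop, (∀ T : Finset V, T ⊆ Λ → A (T : Set V) → B (T : Set V)) →
      PSF F Λ A ≤ PSF F Λ B) ∧
    ∀ A B : Set V → Prop, PSF F Λ (fun X => A X ∨ B X) ≤ PSF F Λ A + PSF F Λ B

/-- TL1. Tail inequality. `F` depends on the coins in `Λ`; noise `s` on `B`, full noise off `B`: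
`∑_T fh F T ^ 2 * ∏_{v ∈ T} (1 - ρ v) = 4 Q ρ F F - 4 Pr F + 1` for every profile `ρ` (expand
`∫ pmf F (w.1) * pmf F (w.2) dPP ρ` in the Fourier basis), here the sum is over `T ⊆ B` with weight
`(1 - s) ^ |T|`; subtract the same for `ρ = 1` (weight `0 ^ |T|`); `(1 - s) ^ |T| ≥ 1 / 4` if
`|T| * s ≤ 1`, `s ≤ 1 / 2`. -/
def TL1_stmt : Prop :=
  ∀ (Λ B : Finset V) (F : Set (V → Bool)) (s : ℝ), DP.Dep F (Λ : Set V) → B ⊆ Λ → 0 < s →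
    s ≤ 1 / 2 →
      PSF F Λ (fun X => X.Nonempty ∧ X ⊆ (B : Set V) ∧ (X.ncard : ℝ) * s ≤ 1) ≤
        16 * (Q (fun v => if v ∈ B then s else 1) F F - Q (fun _ => 1) F F)

/-- TL2. Telescoping upper bound: change the noise from `ρ` to `ρ'` one coin after the other; one step
changes `Q F F` by `(ρ' v - ρ v) / 4 * E[D_v F(ω) D_v F(ω')]` for a mixed profile `≥ ρ`, `|D_v F|` is
the indicator of `Piv {v} F`, and `Q` is antitone in the profile. -/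
def TL2_stmt : Prop :=
  ∀ (Λ : Finset V) (F : Set (V → Bool)) (ρ ρ' : V → ℝ), DP.Dep F (Λ : Set V) → Profile ρ →
    Profile ρ' → (∀ v ∈ Λ, ρ v ≤ ρ' v) →
      Q ρ F F - Q ρ' F F ≤ 1 / 4 * ∑ v ∈ Λ, (ρ' v - ρ v) * Q ρ (Piv {v} F) (Piv {v} F)

/-- TL3. One-point function: `P(u ∈ S) = ∫ (D_u pmf) ^ 2` and `|D_u pmf|` is the indicator of
`Piv {u} F`. Two-point function: `P(u, v ∈ S) = ∫ (D_u D_v pmf) ^ 2`, `|D_u D_v pmf| ≤ 1`, and it is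
zero unless `u` is pivotal for one of the two values of the coin `v` and `v` is pivotal for one of the
two values of the coin `u`. -/
def TL3_stmt : Prop :=
  ∀ (Λ : Finset V) (F : Set (V → Bool)), DP.Dep F (Λ : Set V) →
    (∀ u, PSF F Λ (fun X => u ∈ X) ≤ Pr (Piv {u} F)) ∧
    ∀ u v, u ≠ v → PSF F Λ (fun X => u ∈ X ∧ v ∈ X) ≤
      Pr {b | b ∈ Piv {u, v} F ∧ (∃ a, Function.update b v a ∈ Piv {u} F) ∧
        ∃ a, Function.update b u a ∈ Piv {v} F}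

/-! ## Geometry of the square -/

/-- Sites of the bulk. -/
noncomputable def BF (i k : ℕ) : Finset V := by
  classical exact (VV i).filter fun v => Bulk i k v

/-- The point with even coordinates next to a point of even sum. -/
def evp (v : V) : V := (v.1 - v.1 % 2, v.2 - v.2 % 2)

/-- Left sites of bricks in a box. -/
noncomputable def bxF (i : ℕ) (x : V) (r : ℕ) : Finset V := (VV i).filter fun v => sd x v ≤ r

/-- TL4. Geometry. (a) `Fc i` depends on the coins in `VV i`; (b) it is local; (c) number of sites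
(`hh n ≤ 2 n` since `2 / √3 < 2`, for `n ≥ 1`); (d) the boxes of radius `2 ^ t` around the centres
cover the bulk (take the multiple of `2 ^ (t + 1)` nearest to each coordinate); number of centres. -/
def TL4_stmt : Prop :=
  (∀ i, DP.Dep (Fc i) (VV i : Set V)) ∧ (∀ i, Loc (Fc i) (Set.univ : Set V)) ∧
  (∀ i, ((VV i).card : ℝ) ≤ 16 * 4 ^ i) ∧
  (∀ i k e, e ≤ i → ((GB i k (i - e)).card : ℝ) ≤ 16 * 4 ^ e) ∧
  ∀ (i k t : ℕ) (v : V), t + k + 1 ≤ i → Bulk i k v → ∃ x ∈ GB i (k + 1) t, sd x v ≤ 2 ^ t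

/-- TL5. Pivotal sets of the square give four arms (`PVC` with `W` the rectangle, `k = true`; the end
points of a crossing are in the first and in the last column, at distance `≥ R` from `y`). -/
def TL5_stmt : Prop :=
  ∀ (i : ℕ) (b : V → Bool) (B : Set V) (y : V) (r R : ℕ), B ⊆ box y r → r + 2 ≤ R →
    box y R ⊆ rect 1 (2 * 2 ^ i) 0 (hh (2 ^ i)) → b ∈ Piv B (Fc i) → four (col b) y (r + 2) R

/-! ## Tail of the number of points in the bulk -/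

/-- TL6. Noisy one-point function. `Piv {v} (Fc i)` implies four arms around `evp v` between `3` and
`2 ^ (i - k - 1)`, hence between `2 ^ m₀` and `2 ^ (i - k - 1)` (`TL5`, `AM`); then `Bmono`, `Banti`
(local event of an annulus), `TRQ`. -/
def TL6_stmt : Prop :=
  ∀ (m₀ i k : ℕ) (v : V) (ρ : V → ℝ) (s : ℝ), 2 ≤ m₀ → m₀ + k + 2 ≤ i → v ∈ BF i k → Profile ρ →
    0 ≤ s → s ≤ 1 → (∀ w, s ≤ ρ w) →
      Q ρ (Piv {v} (Fc i)) (Piv {v} (Fc i)) ≤ qa (fun _ => s) 4 0 (2 ^ m₀) (2 ^ (i - k - 1))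

/-- The noise which belongs to the scale `2 ^ p`. -/
noncomputable def sc (c₁ : ℝ) (m₀ p : ℕ) : ℝ := c₁ / (4 ^ p * a4 m₀ p)

/-- TL7. Scales: `QMX` (second part, profile `sc`), `qa ρ 4 0 (2 ^ m₀) (2 ^ p) ≤ a4 m₀ p`, `DEC` with
`t = sc c₁ m₀ p`, `p₀ = p`; `sc → 0` by `GRO` (and positivity of `a4`: `EXR`, `QZ`). -/
def TL7_stmt : Prop :=
  ∃ k₀ : ℕ, ∀ m₀, k₀ ≤ m₀ → ∃ (c₁ c₂ C : ℝ) (i₀ : ℕ), 0 < c₁ ∧ 0 < c₂ ∧ 0 < C ∧ m₀ < i₀ ∧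
    (∀ p, i₀ ≤ p → 0 < a4 m₀ p ∧ 0 < sc c₁ m₀ p ∧ sc c₁ m₀ p ≤ 1 / 2) ∧
    ∀ p q, i₀ ≤ p → p < q → qa (fun _ => sc c₁ m₀ p) 4 0 (2 ^ m₀) (2 ^ q) ≤
      C * (a4 m₀ p * (2 : ℝ) ^ (-((2 + c₂) * ((q : ℝ) - p))))

/-- Noise `s` in the bulk, full noise in the collar. -/
noncomputable def rB (i k : ℕ) (s : ℝ) : V → ℝ := fun v => if v ∈ BF i k then s else 1

/-- TL8. One step of the telescoping over the scales, and the first step. If `sc (p + 1) ≥ sc p` the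
left side is `≤ 0` (`Banti`); otherwise `TL2`, `TL6` with `s = sc (p + 1)`, `TL7`, `TL4` (number of
sites): `sc p * 16 * 4 ^ i * C a4 m₀ (p + 1) 2 ^ (-(2 + c₂) (i - k - 1 - (p + 1)))` and
`a4 m₀ (p + 1) ≤ a4 m₀ p` (`AM`). The constants `c₁ c₂ C i₀` are those of `TL7`. -/
def TL8_stmt : Prop :=
  ∀ (m₀ k i₀ : ℕ) (c₁ c₂ C : ℝ), 2 ≤ m₀ → 0 < c₁ → 0 < c₂ → 0 < C → m₀ < i₀ →
    (∀ p, i₀ ≤ p → 0 < a4 m₀ p ∧ 0 < sc c₁ m₀ p ∧ sc c₁ m₀ p ≤ 1 / 2) →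
    (∀ p q, i₀ ≤ p → p < q → qa (fun _ => sc c₁ m₀ p) 4 0 (2 ^ m₀) (2 ^ q) ≤
      C * (a4 m₀ p * (2 : ℝ) ^ (-((2 + c₂) * ((q : ℝ) - p))))) →
    ∃ K : ℝ, 0 < K ∧ ∀ i p : ℕ, i₀ ≤ p → p + k + 3 ≤ i →
      Q (rB i k (sc c₁ m₀ (p + 1))) (Fc i) (Fc i) - Q (rB i k (sc c₁ m₀ p)) (Fc i) (Fc i) ≤
        K * (2 : ℝ) ^ (-(c₂ * ((i : ℝ) - p))) ∧
      Q (rB i k (sc c₁ m₀ i₀)) (Fc i) (Fc i) - Q (fun _ => 1) (Fc i) (Fc i) ≤
        K * (2 : ℝ) ^ (-(c₂ * ((i : ℝ) - i₀)))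

/-- TL9. Sum over the scales (geometric sum): induction on `p` with the constant
`K' = K + K / (2 ^ c₂ - 1)`. Pure real analysis, `D p = Q (rB ..) - Q 1`. -/
def TL9_stmt : Prop :=
  ∀ (c₂ K : ℝ), 0 < c₂ → 0 < K → ∃ K' : ℝ, 0 < K' ∧ ∀ (D : ℕ → ℝ) (i i₀ p₁ : ℕ),
    (∀ p, i₀ ≤ p → p < p₁ → D (p + 1) - D p ≤ K * (2 : ℝ) ^ (-(c₂ * ((i : ℝ) - p)))) →
    D i₀ ≤ K * (2 : ℝ) ^ (-(c₂ * ((i : ℝ) - i₀))) →
      ∀ p, i₀ ≤ p → p ≤ p₁ → D p ≤ K' * (2 : ℝ) ^ (-(c₂ * ((i : ℝ) - p)))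

/-- TL10. Lower tail of the number of points if the spectral sample is in the bulk: `TL7`, `TL8`,
`TL9` at `p = i - J`, `J` large, then `TL1` with `s = sc c₁ m₀ (i - J)` and
`κ = 1 / (4 ^ J c₁)`: `|X| ≤ κ 4 ^ i a4 m₀ i` implies `|X| s ≤ a4 m₀ i / a4 m₀ (i - J) ≤ 1`. -/
def TL10_stmt : Prop :=
  ∃ k₀ : ℕ, ∀ m₀, k₀ ≤ m₀ → ∀ (k : ℕ) (η : ℝ), 0 < η → ∃ (κ : ℝ) (i₁ : ℕ), 0 < κ ∧ ∀ i ≥ i₁,
    PS i (fun X => X.Nonempty ∧ X ⊆ (BF i k : Set V) ∧ (X.ncard : ℝ) ≤ κ * (4 ^ i * a4 m₀ i)) ≤ η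

/-! ## Second moment in a box -/

/-- TL11. The event of `TL3` gives four arms at three places: around `evp u` and `evp v` up to
`2 ^ (l - 2)` (the brick of the other point is outside, so the value of its coin does not matter) and
around `evp u` from `2 ^ (l + 2)` to `2 ^ (i - k - 1)` (`TL5` with `B = {u, v}`,
`r = 2 ^ (l + 1) + 1`). Deterministic. -/
def TL11_stmt : Prop :=
  ∀ (m₀ i k t l : ℕ) (x u v : V) (b : V → Bool), 2 ≤ m₀ → m₀ + 4 ≤ l → x ∈ GB i k t →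
    t + k + 6 ≤ i → u ∈ bxF i x (2 ^ t) → v ∈ bxF i x (2 ^ t) → 2 ^ l ≤ sd u v →
    sd u v < 2 ^ (l + 1) → b ∈ Piv {u, v} (Fc i) → (∃ a, Function.update b v a ∈ Piv {u} (Fc i)) →
    (∃ a, Function.update b u a ∈ Piv {v} (Fc i)) →
      four (col b) (evp u) (2 ^ m₀) (2 ^ (l - 2)) ∧ four (col b) (evp v) (2 ^ m₀) (2 ^ (l - 2)) ∧
        four (col b) (evp u) (2 ^ (l + 2)) (2 ^ (i - k - 1))

/-- TL12. Two-point function: `TL3`, `TL11`, independence (`Bindep`, `Bmarg`; `BDis.of_sd`), `TRQ`,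
`QMX` (first part, gap 4), `EXR`. Near points: `TL3` (one-point), `TL5`, `AM`, `TRQ`, `EXR`. (`l ≤ t + 1`
follows.) -/
def TL12_stmt : Prop :=
  ∃ k₀ : ℕ, ∀ m₀, k₀ ≤ m₀ → ∃ C : ℝ, 0 < C ∧ ∀ (i k t : ℕ) (x u v : V), x ∈ GB i k t →
    m₀ ≤ t → t + k + 6 ≤ i → u ∈ bxF i x (2 ^ t) → v ∈ bxF i x (2 ^ t) →
      PS i (fun X => u ∈ X ∧ v ∈ X) ≤ C * a4 m₀ (i - k) ∧
      ∀ l, m₀ + 4 ≤ l → 2 ^ l ≤ sd u v → sd u v < 2 ^ (l + 1) →
        PS i (fun X => u ∈ X ∧ v ∈ X) ≤ C * (a4 m₀ l * a4 m₀ (i - k))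

/-- TL13. Number of points of a box at distance less than `2 ^ (l + 1)` (pure counting: at most
`(2 r + 1) ^ 2` sites in a box of radius `r`). -/
def TL13_stmt : Prop :=
  ∀ (i l t : ℕ) (x u : V), (((bxF i x (2 ^ t)).filter fun v => sd u v < 2 ^ (l + 1)).card : ℝ) ≤
    64 * 4 ^ l ∧ ((bxF i x (2 ^ t)).card : ℝ) ≤ 16 * 4 ^ t

/-- TL14. Second moment in one box: `TL12`, `TL13`, dyadic sum over `l ≤ t + 1`, `SUM`, then `QMX`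
(second part: `a4 m₀ (i - k) ≤ C a4 m₀ t * a4 t (i - k)`). -/
def TL14_stmt : Prop :=
  ∃ k₀ : ℕ, ∀ m₀, k₀ ≤ m₀ → ∃ C : ℝ, 0 < C ∧ ∀ (i k t : ℕ) (x : V), x ∈ GB i k t →
    m₀ + 4 ≤ t → t + k + 6 ≤ i →
      ∑ u ∈ bxF i x (2 ^ t), ∑ v ∈ bxF i x (2 ^ t), PS i (fun X => u ∈ X ∧ v ∈ X) ≤
        C * ((4 ^ t * a4 m₀ t) ^ 2 * a4 t (i - k))

open Classical in
/-- TL15. Markov's inequality for the sum of squares (finite sums:
`|X ∩ b| ^ 2 = ∑_{u, v ∈ b} 1[u ∈ X, v ∈ X]`). -/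
def TL15_stmt : Prop :=
  ∀ (i r : ℕ) (G : Finset V) (Z : ℝ), 0 < Z →
    PS i (fun X => Z < ∑ x ∈ G, (((bxF i x r).filter fun v => v ∈ X).card : ℝ) ^ 2) ≤
      (∑ x ∈ G, ∑ u ∈ bxF i x r, ∑ v ∈ bxF i x r, PS i (fun X => u ∈ X ∧ v ∈ X)) / Z

open Classical in
/-- TL16. Cauchy-Schwarz: a finite set covered by boxes. -/
def TL16_stmt : Prop :=
  ∀ (i r : ℕ) (G T : Finset V), T ⊆ VV i → (∀ v ∈ T, ∃ x ∈ G, sd x v ≤ r) →
    (T.card : ℝ) ^ 2 ≤ ((G.filter fun x => ∃ v ∈ T, sd x v ≤ r).card : ℝ) *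
      ∑ x ∈ G, (((bxF i x r).filter fun v => v ∈ T).card : ℝ) ^ 2

/-- TL17. Comparison of the normalisations: `EXR`, `QMX` (first part, `r = 0`). -/
def TL17_stmt : Prop :=
  ∃ k₀ : ℕ, ∀ m₀, k₀ ≤ m₀ → ∀ k : ℕ, ∃ c : ℝ, 0 < c ∧ ∀ i t : ℕ, m₀ < t → t + k < i →
    c * (a4 m₀ t * a4 t (i - k)) ≤ a4 m₀ i ∧ 0 < a4 m₀ t ∧ 0 < a4 t (i - k)

/-- TL18. `U3_stmt`. Given `η`: `k₁` from `D4` with `η / 3`, `k = k₁ + 1`; `κ₁` from `TL10` (bulk `k₁`);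
`Z = 48 C / η * 4 ^ e (4 ^ t a4 m₀ t) ^ 2 a4 t (i - k)`, `t = i - e`, `e₀ = k + 6` (`TL14`, `TL15`,
`TL4`: at most `16 * 4 ^ e` centres); off the three events (`TL0`) `|X| ^ 2 ≤ N(X) Z` (`TL16`, `TL4`)
and `|X| > κ₁ 4 ^ i a4 m₀ i`, so `N(X) ≥ κ 4 ^ e a4 t (i - k)` by `TL17`, `4 ^ i = 4 ^ e * 4 ^ t`. -/
def TL18_stmt : Prop := D4_stmt → U3_stmt

end TP
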