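import Pool.Agent.helper31.SP.SpecTL

/-!
# sp: TL18, the lower tail of the number of boxes hit by the spectral sample (`U3_stmt`)
-/

namespace TP

open DP MeasureTheory

/-- arithmetic of the last step -/
lemma TL18_arith (κ₁ c C η A B AI N S T pe pt pI : ℝ) (hκ₁ : 0 < κ₁) (hc : 0 < c) (hC : 0 < C)
    (hη : 0 < η) (hA : 0 < A) (hB : 0 < B) (hpe : 0 < pe) (hpt : 0 < pt) (hpI : pI = pe * pt)
    (h1 : c * (A * B) ≤ AI) (h2 : κ₁ * (pI * AI) < T) (h3 : T ^ 2 ≤ N * S) (hN : 0 ≤ N)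
    (h4 : S ≤ 48 * C / η * (pe * ((pt * A) ^ 2 * B))) :
    ¬ N < κ₁ ^ 2 * c ^ 2 * η / (48 * C) * (pe * B) := by
  intro h5
  have e1 : 0 < κ₁ * (pI * (c * (A * B))) := by
    rw [hpI]; positivity
  have e2 : κ₁ * (pI * (c * (A * B))) ≤ κ₁ * (pI * AI) := by
    have : 0 < pI := by rw [hpI]; positivity
    gcongr
  have e3 : κ₁ * (pI * (c * (A * B))) < T := lt_of_le_of_lt e2 h2
  have e4 : (κ₁ * (pI * (c * (A * B)))) ^ 2 < T ^ 2 := by
    apply pow_lt_pow_left₀ e3 e1.le (by norm_num)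
  have hZ : 0 < 48 * C / η * (pe * ((pt * A) ^ 2 * B)) := by positivity
  have e5 : N * S ≤ N * (48 * C / η * (pe * ((pt * A) ^ 2 * B))) :=
    mul_le_mul_of_nonneg_left h4 hN
  have e6 : N * (48 * C / η * (pe * ((pt * A) ^ 2 * B))) ≤
      κ₁ ^ 2 * c ^ 2 * η / (48 * C) * (pe * B) * (48 * C / η * (pe * ((pt * A) ^ 2 * B))) :=
    mul_le_mul_of_nonneg_right h5.le hZ.le
  have e7 : κ₁ ^ 2 * c ^ 2 * η / (48 * C) * (pe * B) * (48 * C / η * (pe * ((pt * A) ^ 2 * B))) =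
      (κ₁ * (pI * (c * (A * B)))) ^ 2 := by
    rw [hpI]; field_simp
  linarith

theorem TL18 (h0 : TL0_stmt) (h4 : TL4_stmt) (h10 : TL10_stmt) (h14 : TL14_stmt)
    (h15 : TL15_stmt) (h16 : TL16_stmt) (h17 : TL17_stmt) : TL18_stmt := by
  classical
  intro hD4 η hη
  obtain ⟨k10, h10⟩ := h10
  obtain ⟨k14, h14⟩ := h14
  obtain ⟨k17, h17⟩ := h17
  set m₀ := max k10 (max k14 k17) with hm₀
  obtain ⟨k₁, iD, hD⟩ := hD4 (η / 3) (by positivity)
  obtain ⟨κ₁, i₁, hκ₁, hT⟩ := h10 m₀ (le_max_left _ _) k₁ (η / 3) (by positivity)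
  obtain ⟨C, hC, hM⟩ := h14 m₀ ((le_max_left _ _).trans (le_max_right _ _))
  obtain ⟨c, hc, hA⟩ := h17 m₀ ((le_max_right _ _).trans (le_max_right _ _)) (k₁ + 1)
  refine ⟨κ₁ ^ 2 * c ^ 2 * η / (48 * C), k₁ + 1, k₁ + 7, by positivity, by omega,
    fun e he => ⟨max iD (max i₁ (e + m₀ + 5)), fun i hi => ?_⟩⟩
  have hi1 : iD ≤ i := (le_max_left _ _).trans hi
  have hi2 : i₁ ≤ i := ((le_max_left _ _).trans (le_max_right _ _)).trans hi
  have hi3 : e + m₀ + 5 ≤ i := ((le_max_right _ _).trans (le_max_right _ _)).trans hi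
  obtain ⟨t, ht⟩ : ∃ t, t = i - e := ⟨_, rfl⟩
  have hit : i = e + t := by omega
  rw [← ht]
  obtain ⟨hA1, hA2, hA3⟩ := hA i t (by omega) (by omega)
  obtain ⟨hPos, hMono, hUnion⟩ := h0 (Fc i) (VV i)
  obtain ⟨-, -, -, hGB, hcov⟩ := h4
  set G := GB i (k₁ + 1) t with hG
  set Z : ℝ := 48 * C / η * (4 ^ e * ((4 ^ t * a4 m₀ t) ^ 2 * a4 t (i - (k₁ + 1)))) with hZdef
  have hZ : 0 < Z := by positivity
  -- the three bad events
  have b1 := hD i hi1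
  have b2 := hT i hi2
  have b3 : PS i (fun X => Z < ∑ x ∈ G, (((bxF i x (2 ^ t)).filter fun v => v ∈ X).card : ℝ) ^ 2) ≤
      η / 3 := by
    refine (h15 i (2 ^ t) G Z hZ).trans ?_
    rw [div_le_iff₀ hZ]
    have hsum : ∑ x ∈ G, ∑ u ∈ bxF i x (2 ^ t), ∑ v ∈ bxF i x (2 ^ t),
        PS i (fun X => u ∈ X ∧ v ∈ X) ≤
        ∑ _x ∈ G, C * ((4 ^ t * a4 m₀ t) ^ 2 * a4 t (i - (k₁ + 1))) :=
      Finset.sum_le_sum fun x hx => hM i (k₁ + 1) t x hx (by omega) (by omega)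
    refine hsum.trans ?_
    rw [Finset.sum_const, nsmul_eq_mul]
    have hcard : (G.card : ℝ) ≤ 16 * 4 ^ e := by
      have := hGB i (k₁ + 1) e (by omega)
      rw [← ht] at this
      exact this
    calc (G.card : ℝ) * (C * ((4 ^ t * a4 m₀ t) ^ 2 * a4 t (i - (k₁ + 1))))
        ≤ 16 * 4 ^ e * (C * ((4 ^ t * a4 m₀ t) ^ 2 * a4 t (i - (k₁ + 1)))) :=
          mul_le_mul_of_nonneg_right hcard (by positivity)
      _ = η / 3 * Z := by
          rw [hZdef]; field_simp; ring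
  -- inclusion
  have hincl : PS i (fun X => X.Nonempty ∧
      (Nat.card {x // x ∈ G ∧ ∃ v ∈ X, sd x v ≤ 2 ^ t} : ℝ) <
        κ₁ ^ 2 * c ^ 2 * η / (48 * C) * (4 ^ e * a4 t (i - (k₁ + 1)))) ≤
      PS i (fun X => (∃ v ∈ X, ¬ Bulk i k₁ v) ∨
        ((X.Nonempty ∧ X ⊆ (BF i k₁ : Set V) ∧ (X.ncard : ℝ) ≤ κ₁ * (4 ^ i * a4 m₀ i)) ∨
          Z < ∑ x ∈ G, (((bxF i x (2 ^ t)).filter fun v => v ∈ X).card : ℝ) ^ 2)) := by
    refine hMono _ _ fun T hT' hX => ?_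
    obtain ⟨hne, hlt⟩ := hX
    by_contra hcon
    push Not at hcon
    obtain ⟨c1, c2, c3⟩ := hcon
    have hsub : (T : Set V) ⊆ (BF i k₁ : Set V) := by
      intro v hv
      have hv' : v ∈ T := by exact_mod_cast hv
      have := c1 v hv
      simp only [BF, Finset.coe_filter, Set.mem_ofPred_eq]
      exact ⟨hT' hv', this⟩
    have c2' := c2 hne hsub
    rw [Set.ncard_coe_finset] at c2'
    have hcs := h16 i (2 ^ t) G T hT' (fun v hv => by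
      have := c1 v (by exact_mod_cast hv)
      exact hcov i k₁ t v (by omega) this)
    have hNat : (Nat.card {x // x ∈ G ∧ ∃ v ∈ (T : Set V), sd x v ≤ 2 ^ t}) =
        (G.filter fun x => ∃ v ∈ T, sd x v ≤ 2 ^ t).card := by
      rw [← Nat.card_eq_finsetCard]
      refine Nat.card_congr (Equiv.subtypeEquivRight fun x => ?_)
      rw [Finset.mem_filter]
      exact Iff.rfl
    have hS : ∀ (d : DecidablePred fun v => v ∈ (T : Set V)) (d' : DecidablePred fun v => v ∈ T),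
        (∑ x ∈ G, ((@Finset.filter V (fun v => v ∈ (T : Set V)) d (bxF i x (2 ^ t))).card : ℝ) ^ 2) =
        ∑ x ∈ G, ((@Finset.filter V (fun v => v ∈ T) d' (bxF i x (2 ^ t))).card : ℝ) ^ 2 := by
      intro d d'
      refine Finset.sum_congr rfl fun x _ => ?_
      have : @Finset.filter V (fun v => v ∈ (T : Set V)) d (bxF i x (2 ^ t)) =
          @Finset.filter V (fun v => v ∈ T) d' (bxF i x (2 ^ t)) := by
        refine Finset.ext fun v => ?_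
        exact (@Finset.mem_filter _ _ d _ _).trans (@Finset.mem_filter _ _ d' _ _).symm
      rw [this]
    rw [hNat] at hlt
    have e4 : (4 : ℝ) ^ i = 4 ^ e * 4 ^ t := by rw [hit, pow_add]
    refine TL18_arith κ₁ c C η (a4 m₀ t) (a4 t (i - (k₁ + 1))) (a4 m₀ i) _ _ _
      (4 ^ e) (4 ^ t) (4 ^ i) hκ₁ hc hC hη hA2 hA3 (by positivity) (by positivity)
      e4 hA1 c2' hcs (Nat.cast_nonneg _) ?_ hlt
    rw [← hZdef]
    refine le_trans (le_of_eq ?_) c3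
    exact (hS _ _).symm
  have hUnion' : ∀ A B : Set V → Prop, PS i (fun X => A X ∨ B X) ≤ PS i A + PS i B := hUnion
  refine hincl.trans ?_
  have u1 := hUnion' (fun X => ∃ v ∈ X, ¬ Bulk i k₁ v)
    (fun X => (X.Nonempty ∧ X ⊆ (BF i k₁ : Set V) ∧ (X.ncard : ℝ) ≤ κ₁ * (4 ^ i * a4 m₀ i)) ∨
          Z < ∑ x ∈ G, (((bxF i x (2 ^ t)).filter fun v => v ∈ X).card : ℝ) ^ 2)
  have u2 := hUnion' (fun X => X.Nonempty ∧ X ⊆ (BF i k₁ : Set V) ∧
      (X.ncard : ℝ) ≤ κ₁ * (4 ^ i * a4 m₀ i))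
    (fun X => Z < ∑ x ∈ G, (((bxF i x (2 ^ t)).filter fun v => v ∈ X).card : ℝ) ^ 2)
  linarith

end TP
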